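import Mathlib

namespace Pool.Agent.Results.MP_f5b580_co.OddCase

open Finset
open scoped symmDiff

lemma four {n : ℕ} (Z : Finset (Finset (Fin n))) (U V : Finset (Fin n))
    (h1 : ∀ B ∈ Z, B ∆ U ∉ Z) (h2 : ∀ B ∈ Z, B ∆ V ∉ Z) (h3 : ∀ B ∈ Z, B ∆ U ∆ V ∉ Z) :
    4 * Z.card ≤ 2 ^ n := by
  have inj : ∀ W : Finset (Fin n), Function.Injective (fun B : Finset (Fin n) => B ∆ W) :=
    fun W => symmDiff_left_injective W
  have d1 : Disjoint Z (Z.image (fun B => B ∆ U)) := by
    rw [disjoint_right]; intro B hB hZ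
    obtain ⟨C, hC, rfl⟩ := mem_image.1 hB
    exact h1 C hC hZ
  set Y := Z ∪ Z.image (fun B => B ∆ U) with hY
  have cY : Y.card = 2 * Z.card := by
    rw [hY, card_union_of_disjoint d1, card_image_of_injective _ (inj U)]; ring
  have d2 : Disjoint Y (Y.image (fun B => B ∆ V)) := by
    rw [disjoint_right]; intro B hB hZ
    obtain ⟨C, hC, rfl⟩ := mem_image.1 hB
    rcases mem_union.1 hC with hC | hC <;> rcases mem_union.1 hZ with hZ | hZ
    · exact h2 C hC hZ
    · obtain ⟨D, hD, e⟩ := mem_image.1 hZ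
      apply h3 D hD
      rw [e, symmDiff_symmDiff_cancel_right]; exact hC
    · obtain ⟨D, hD, rfl⟩ := mem_image.1 hC
      exact h3 D hD hZ
    · obtain ⟨D, hD, rfl⟩ := mem_image.1 hC
      obtain ⟨E, hE, e⟩ := mem_image.1 hZ
      rw [symmDiff_right_comm] at e
      have := inj U e
      exact h2 D hD (this ▸ hE)
  have := card_le_univ (Y ∪ Y.image (fun B => B ∆ V))
  rw [card_union_of_disjoint d2, card_image_of_injective _ (inj V), cY, Fintype.card_finset,
    Fintype.card_fin] at this
  omega

lemma tog {n : ℕ} (x : Fin n → ℝ) (B : Finset (Fin n)) (i : Fin n) :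
    ∑ k ∈ B ∆ {i}, x k = ∑ k ∈ B, x k + x i ∨ ∑ k ∈ B ∆ {i}, x k = ∑ k ∈ B, x k - x i := by
  by_cases h : i ∈ B
  · right
    have : B ∆ {i} = B.erase i := by
      ext k; simp only [mem_symmDiff, mem_singleton, mem_erase]
      by_cases hk : k = i <;> simp [hk, h]
    rw [this, ← add_sum_erase B x h]; ring
  · left
    have : B ∆ {i} = insert i B := by
      ext k; simp only [mem_symmDiff, mem_singleton, mem_insert]
      by_cases hk : k = i <;> simp [hk, h]
    rw [this, sum_insert h]; ring

lemma cpl {n : ℕ} (x : Fin n → ℝ) (B : Finset (Fin n)) :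
    ∑ k ∈ B ∆ univ, x k = ∑ k, x k - ∑ k ∈ B, x k := by
  have : B ∆ univ = Bᶜ := by ext k; simp [mem_symmDiff]
  rw [this, ← sum_add_sum_compl B x]; ring

lemma upper {n : ℕ} (hn : Odd n) (x : Fin n → ℝ) (hx : ∀ i, x i ≠ ∑ k, x k) :
    4 * (univ.filter (fun B : Finset (Fin n) => ∑ i ∈ B, x i = 0)).card ≤ 2 ^ n := by
  by_cases hs : ∑ k, x k = 0
  · rw [hs] at hx
    by_cases hij : ∃ i j, x i ≠ x j ∧ x i ≠ -x j
    · obtain ⟨i, j, e1, e2⟩ := hij
      apply four _ {i} {j} <;> intro B hB h <;> simp only [mem_filter, mem_univ, true_and] at hB h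
      · rcases tog x B i with t | t <;> exact hx i (by linarith)
      · rcases tog x B j with t | t <;> exact hx j (by linarith)
      · rcases tog x B i with t | t <;> rcases tog x (B ∆ {i}) j with u | u
        · exact e2 (by linarith)
        · exact e1 (by linarith)
        · exact e1 (by linarith)
        · exact e2 (by linarith)
    · exfalso
      push Not at hij
      have j : Fin n := ⟨0, hn.pos⟩
      have e := sum_filter_add_sum_filter_not univ (fun i => x i = x j) x
      have c := card_filter_add_card_filter_not (s := (univ : Finset (Fin n))) (fun i => x i = x j)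
      rw [sum_congr rfl (fun i hi => (mem_filter.1 hi).2),
        sum_congr rfl (fun i hi => hij i j (mem_filter.1 hi).2), sum_const, sum_const,
        nsmul_eq_mul, nsmul_eq_mul, hs] at e
      rw [card_univ, Fintype.card_fin] at c
      have e2 : ((univ.filter (fun i => x i = x j)).card : ℝ) =
          (univ.filter (fun i => ¬ x i = x j)).card :=
        mul_right_cancel₀ (hx j) (by linarith)
      have e3 : (univ.filter (fun i => x i = x j)).card =
          (univ.filter (fun i => ¬ x i = x j)).card := by exact_mod_cast e2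
      obtain ⟨m, hm⟩ := hn
      omega
  · have : ∃ i, x i ≠ 0 ∧ x i ≠ -∑ k, x k := by
      by_contra hc
      push Not at hc
      have h1 : ∑ i, x i * ∑ k, x k ≤ 0 := by
        apply sum_nonpos
        intro i _
        by_cases h : x i = 0
        · simp [h]
        · rw [hc i h]; nlinarith [mul_self_nonneg (∑ k, x k)]
      rw [← sum_mul] at h1
      exact absurd h1 (not_le.2 (mul_self_pos.2 hs))
    obtain ⟨i, e1, e2⟩ := this
    apply four _ {i} univ <;> intro B hB h <;> simp only [mem_filter, mem_univ, true_and] at hB h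
    · rcases tog x B i with t | t <;> exact e1 (by linarith)
    · rw [cpl] at h; exact hs (by linarith)
    · rw [cpl] at h
      rcases tog x B i with t | t
      · exact hx i (by linarith)
      · exact e2 (by linarith)

/-- `f(n, n-1) = 2^(n-2)` for every odd `n ≥ 3`. -/
theorem result (n : ℕ) (hn : Odd n) (h3 : 3 ≤ n) :
    IsGreatest {z : ℕ | ∃ x : Fin n → ℝ,
      (∀ S : Finset (Fin n), S.card = n - 1 → ∑ i ∈ S, x i ≠ 0) ∧
      z = (Finset.univ.filter (fun B : Finset (Fin n) => ∑ i ∈ B, x i = 0)).card} (2 ^ (n - 2)) := by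
  have hp : 2 ^ n = 4 * 2 ^ (n - 2) := by
    obtain ⟨m, rfl⟩ : ∃ m, n = m + 2 := ⟨n - 2, by omega⟩
    rw [Nat.add_sub_cancel]; ring
  have ub : ∀ x : Fin n → ℝ, (∀ S : Finset (Fin n), S.card = n - 1 → ∑ i ∈ S, x i ≠ 0) →
      (univ.filter (fun B : Finset (Fin n) => ∑ i ∈ B, x i = 0)).card ≤ 2 ^ (n - 2) := by
    intro x hx
    have := upper hn x (fun i h => hx (univ.erase i) (by simp) (by
      have := add_sum_erase univ x (mem_univ i)
      linarith))
    omega
  refine ⟨?_, ?_⟩
  · let a : Fin n := ⟨0, by omega⟩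
    let b : Fin n := ⟨1, by omega⟩
    have hab : a ≠ b := by simp [a, b]
    let T : Finset (Fin n) := {a, b}
    have hT : T.card = 2 := card_pair hab
    have hTc : Tᶜ.card = n - 2 := by rw [card_compl, Fintype.card_fin, hT]
    have adm : ∀ S : Finset (Fin n), S.card = n - 1 →
        ∑ i ∈ S, (if i ∈ T then (1 : ℝ) else 0) ≠ 0 := by
      intro S hS h0
      rw [sum_eq_zero_iff_of_nonneg (fun i _ => by split_ifs <;> norm_num)] at h0
      have : S ⊆ Tᶜ := by
        intro i hi
        rw [mem_compl]; intro h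
        have := h0 i hi
        simp [h] at this
      have := card_le_card this
      omega
    refine ⟨fun i => if i ∈ T then 1 else 0, adm, le_antisymm ?_ (ub _ adm)⟩
    rw [← hTc, ← card_powerset]
    apply card_le_card
    intro B hB
    rw [mem_filter]
    refine ⟨mem_univ _, sum_eq_zero fun i hi => if_neg ?_⟩
    exact mem_compl.1 (mem_powerset.1 hB hi)
  · rintro z ⟨x, hx, rfl⟩
    exact ub x hx

end Pool.Agent.Results.MP_f5b580_co.OddCase
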